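import Pool.Agent.H48.ER2.Top

/-!
# Row CK4: contraction of an even pair creates no clique with four vertices
-/

set_option autoImplicit false

open Pool.Agent.H48.ER Pool.Agent.H52.ER2 Pool.Agent.H66.ER2 Pool.Agent.H48.ER2

namespace Pool.Agent.H33.ER2

/-- a chordless path with three edges -/
theorem path3 {V : Type} (G : SimpleGraph V) (x q p y : V) (h1 : G.Adj x q) (h2 : G.Adj q p)
    (h3 : G.Adj p y) (h4 : ¬ G.Adj x p) (h5 : ¬ G.Adj q y) (h6 : ¬ G.Adj x y) (hxy : x ≠ y) :
    ∃ R, IP G 3 x y R := by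
  have hxp : x ≠ p := by
    rintro rfl
    exact h6 h3
  have hqy : q ≠ y := by
    rintro rfl
    exact h6 h1
  refine ⟨_, fun i => if i = 0 then x else if i = 1 then q else if i = 2 then p else y, rfl, rfl,
    ?_, ?_, rfl⟩
  · intro i j hi hj hij
    interval_cases i <;> interval_cases j <;> simp at hij ⊢ <;> subst hij <;>
      first
        | exact G.loopless.irrefl _ h1
        | exact G.loopless.irrefl _ h2
        | exact G.loopless.irrefl _ h3
        | exact hxy rfl
        | exact hxp rfl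
        | exact hqy rfl
  · have h4' : ¬ G.Adj p x := fun h => h4 h.symm
    have h5' : ¬ G.Adj y q := fun h => h5 h.symm
    have h6' : ¬ G.Adj y x := fun h => h6 h.symm
    intro i j hi hj
    interval_cases i <;> interval_cases j <;>
      simp [h1, h2, h3, h4, h5, h6, h1.symm, h2.symm, h3.symm, h4', h5', h6']

theorem key3 {V : Type} (G : SimpleGraph V) (x y : V) (hxy : EvP G x y) (hK : K4F G) (b c d : V)
    (hbc : G.Adj b c) (hbd : G.Adj b d) (hcd : G.Adj c d) (hb : G.Adj x b ∨ G.Adj y b)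
    (hc : G.Adj x c ∨ G.Adj y c) (hd : G.Adj x d ∨ G.Adj y d) : False := by
  have hne := hxy.1
  have hn := hxy.2.1
  have key : ∀ p q : V, G.Adj q p → ¬ G.Adj x p → G.Adj y p → ¬ G.Adj y q → G.Adj x q →
      False := by
    intro p q h1 h2 h3 h4 h5
    obtain ⟨R, hR⟩ := path3 G x q p y h5 h1 h3.symm h2 (fun h => h4 h.symm) hn hne
    have h6 := hxy.2.2 3 R hR
    exact absurd h6 (by decide)
  by_cases hx : G.Adj x b ∧ G.Adj x c ∧ G.Adj x d
  · exact hK x b c d hx.1 hx.2.1 hx.2.2 hbc hbd hcd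
  by_cases hy : G.Adj y b ∧ G.Adj y c ∧ G.Adj y d
  · exact hK y b c d hy.1 hy.2.1 hy.2.2 hbc hbd hcd
  -- a vertex which is not adjacent to `x`, and one which is not adjacent to `y`
  have h1 : ∃ p, (p = b ∨ p = c ∨ p = d) ∧ ¬ G.Adj x p := by
    by_contra hcon
    push Not at hcon
    exact hx ⟨hcon b (Or.inl rfl), hcon c (Or.inr (Or.inl rfl)), hcon d (Or.inr (Or.inr rfl))⟩
  have h2 : ∃ q, (q = b ∨ q = c ∨ q = d) ∧ ¬ G.Adj y q := by
    by_contra hcon
    push Not at hcon
    exact hy ⟨hcon b (Or.inl rfl), hcon c (Or.inr (Or.inl rfl)), hcon d (Or.inr (Or.inr rfl))⟩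
  obtain ⟨p, hp, hpx⟩ := h1
  obtain ⟨q, hq, hqy⟩ := h2
  have hor : ∀ r, (r = b ∨ r = c ∨ r = d) → G.Adj x r ∨ G.Adj y r := by
    rintro r (rfl | rfl | rfl)
    · exact hb
    · exact hc
    · exact hd
  have hpy : G.Adj y p := (hor p hp).resolve_left hpx
  have hqx : G.Adj x q := (hor q hq).resolve_right hqy
  have hpq : q ≠ p := by
    rintro rfl
    exact hpx hqx
  have hadj : G.Adj q p := by
    rcases hp with rfl | rfl | rfl <;> rcases hq with rfl | rfl | rfl
    · exact absurd rfl hpq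
    · exact hbc.symm
    · exact hbd.symm
    · exact hbc
    · exact absurd rfl hpq
    · exact hcd.symm
    · exact hbd
    · exact hcd
    · exact absurd rfl hpq
  exact key p q hadj hpx hpy hqy hqx

theorem pf_CK4 : T_CK4 := by
  intro V G x y hxy hK a b c d hab hac had hbc hbd hcd
  have hn : ∀ p q : V, (ctr G x y).Adj p q → p ≠ x → q ≠ x → G.Adj p q := by
    rintro p q ⟨-, -, -, h⟩ hp hq
    rcases h with h | ⟨h, -⟩ | ⟨h, -⟩
    · exact h
    · exact absurd h hp
    · exact absurd h hq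
  have hx : ∀ q : V, (ctr G x y).Adj x q → G.Adj x q ∨ G.Adj y q := by
    rintro q ⟨h1, -, -, h⟩
    rcases h with h | ⟨-, h⟩ | ⟨h, -⟩
    · exact Or.inl h
    · exact Or.inr h
    · exact absurd h.symm h1
  by_cases ha : a = x
  · subst ha
    exact key3 G a y hxy hK b c d (hn b c hbc hab.ne' hac.ne') (hn b d hbd hab.ne' had.ne')
      (hn c d hcd hac.ne' had.ne') (hx b hab) (hx c hac) (hx d had)
  by_cases hb : b = x
  · subst hb
    exact key3 G b y hxy hK a c d (hn a c hac hab.ne hbc.ne') (hn a d had hab.ne hbd.ne')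
      (hn c d hcd hbc.ne' hbd.ne') (hx a hab.symm) (hx c hbc) (hx d hbd)
  by_cases hc : c = x
  · subst hc
    exact key3 G c y hxy hK a b d (hn a b hab hac.ne hbc.ne) (hn a d had hac.ne hcd.ne')
      (hn b d hbd hbc.ne hcd.ne') (hx a hac.symm) (hx b hbc.symm) (hx d hcd)
  by_cases hd : d = x
  · subst hd
    exact key3 G d y hxy hK a b c (hn a b hab had.ne hbd.ne) (hn a c hac had.ne hcd.ne)
      (hn b c hbc hbd.ne hcd.ne) (hx a had.symm) (hx b hbd.symm) (hx c hcd.symm)
  exact hK a b c d (hn a b hab ha hb) (hn a c hac ha hc) (hn a d had ha hd) (hn b c hbc hb hc)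
    (hn b d hbd hb hd) (hn c d hcd hc hd)

end Pool.Agent.H33.ER2
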