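import Pool.Agent.H56.ER2.Targets
import Pool.Agent.H66.ER2.Targets

/-!
# MP_816b90_co: row FCT (first facts on a shortest outer path).
-/

set_option autoImplicit false
set_option linter.unusedVariables false

namespace Pool.Agent.H33.ER2

open Pool.Agent.H48.ER Pool.Agent.H52.ER2 Pool.Agent.H66.ER2 Pool.Agent.H56.ER2

/-- row FCT -/
theorem pf_FCT (hOUE : Pool.Agent.H66.ER2.T_OUE) (hFAB : Pool.Agent.H66.ER2.T_FAB) :
    Pool.Agent.H56.ER2.T_FCT := by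
  intro V G v n z hs
  obtain ⟨h1, h2⟩ := hOUE V G v n z hs.cls.noh hs.f1 hs.so.toOu
  obtain ⟨h3, h4, h5, h6, h7, h8⟩ := hFAB V G v n z hs.cls.noh hs.f1 hs.so
  refine ⟨h1, h2, h3, h4, h5, h6, h7, ?_, ?_⟩
  · intro c hc
    by_cases hA : c ∈ sA G v n z
    · exact Or.inr (Or.inl hA)
    by_cases hB : c ∈ sB G v n z
    · exact Or.inr (Or.inr (Or.inl hB))
    by_cases hw : ∃ w ∈ Wz n z, G.Adj c w
    · have h9 := h8 c hc hA hB hw
      exact Or.inr (Or.inr (Or.inr ⟨fun a ha => h9 a (Or.inl ha), fun b hb => h9 b (Or.inr hb)⟩))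
    · exact Or.inl fun w hw1 hw2 => hw ⟨w, hw1, hw2⟩
  · rintro w ⟨i, hi, hin, rfl⟩
    exact hs.so.int i hi hin

end Pool.Agent.H33.ER2
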