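import Pool.Agent.H48.ER2.Top

/-!
# Row INA: induced subgraphs
-/

set_option autoImplicit false

open Pool.Agent.H48.ER Pool.Agent.H52.ER2 Pool.Agent.H66.ER2 Pool.Agent.H48.ER2

namespace Pool.Agent.H33.ER2

/-- chordless paths under an injective map -/
theorem ip_comap {V W : Type} (G : SimpleGraph V) (e : W → V) (he : Function.Injective e) (n : ℕ)
    (x y : W) (R : Set W) (h : IP (G.comap e) n x y R) : IP G n (e x) (e y) (e '' R) := by
  obtain ⟨g, g0, gn, gi, gadj, hR⟩ := h
  refine ⟨fun i => e (g i), congrArg e g0, congrArg e gn, ?_, ?_, ?_⟩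
  · intro i j hi hj hij
    exact gi i j hi hj (he hij)
  · intro i j hi hj
    exact gadj i j hi hj
  · rw [hR]
    ext v
    constructor
    · rintro ⟨_, ⟨i, hi, rfl⟩, rfl⟩
      exact ⟨i, hi, rfl⟩
    · rintro ⟨i, hi, rfl⟩
      exact ⟨g i, ⟨i, hi, rfl⟩, rfl⟩

theorem pf_INA : T_INA := by
  intro V W G e hG
  have he : Function.Injective e := e.injective
  have hcomp : (G.comap e)ᶜ = Gᶜ.comap e := by
    ext a b
    rw [SimpleGraph.compl_adj, SimpleGraph.comap_adj, SimpleGraph.comap_adj,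
      SimpleGraph.compl_adj, he.ne_iff]
  refine ⟨?_, ?_, ?_⟩
  · intro n u v c R hR hn hc hu hv hw
    refine hG.noh n (e u) (e v) (e c) (e '' R) (ip_comap G e he n u v R hR) hn ?_ hu hv ?_
    · rintro ⟨d, hd, hdc⟩
      rw [he hdc] at hd
      exact hc hd
    · rintro _ ⟨w, hwR, rfl⟩ hcw
      rcases hw w hwR hcw with h | h
      · exact Or.inl (congrArg e h)
      · exact Or.inr (congrArg e h)
  · intro a b n P hP
    refine hG.nop (fun i => e (a i)) (fun i => e (b i)) n (fun i => e '' P i) ⟨?_, ?_, ?_, ?_⟩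
    · intro i
      exact ip_comap G e he _ _ _ _ (hP.ip i)
    · exact hP.pos
    · intro i j hij
      rw [Set.disjoint_left]
      rintro _ ⟨u, hu, rfl⟩ ⟨v, hv, hvu⟩
      rw [he hvu] at hv
      exact Set.disjoint_left.1 (hP.dis i j hij) hu hv
    · rintro i j hij _ ⟨u, hu, rfl⟩ _ ⟨v, hv, rfl⟩
      have h4 := hP.adj i j hij u hu v hv
      rw [he.eq_iff, he.eq_iff, he.eq_iff, he.eq_iff]
      exact h4
  · intro n u v c R hR hn hc hu hv hw
    rw [hcomp] at hR hu hv hw
    refine hG.nah n (e u) (e v) (e c) (e '' R) (ip_comap Gᶜ e he n u v R hR) hn ?_ hu hv ?_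
    · rintro ⟨d, hd, hdc⟩
      rw [he hdc] at hd
      exact hc hd
    · rintro _ ⟨w, hwR, rfl⟩ hcw
      rcases hw w hwR hcw with h | h
      · exact Or.inl (congrArg e h)
      · exact Or.inr (congrArg e h)

end Pool.Agent.H33.ER2
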