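import Pool.Agent.H56.ER2.Targets

/-!
# MP_816b90_co: row LTB (reversal exchanges the two orders).
-/

set_option autoImplicit false
set_option linter.unusedVariables false

namespace Pool.Agent.H33.ER2

open Pool.Agent.H48.ER Pool.Agent.H52.ER2 Pool.Agent.H66.ER2 Pool.Agent.H56.ER2

theorem ltb_og (hRVZ : T_RVZ) {V : Type} {G : SimpleGraph V} {v : V} {n : ℕ} {z : ℕ → V}
    (hs : Stg G v n z) {m : ℕ} {a b : V} {R : Set V} :
    Og G v n z m a b R ↔ Og G v n (rz n z) m b a R := by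
  obtain ⟨_, hA, hB, _⟩ := hRVZ V G v n z hs
  constructor
  · intro h
    exact ⟨h.ip.rev, hA ▸ h.inB, hB ▸ h.inA, fun w hw hw' => h.onlyB w hw (hA ▸ hw'),
      fun w hw hw' => h.onlyA w hw (hB ▸ hw')⟩
  · intro h
    exact ⟨h.ip.rev, hB ▸ h.inB, hA ▸ h.inA, fun w hw hw' => h.onlyB w hw (hB.symm ▸ hw'),
      fun w hw hw' => h.onlyA w hw (hA.symm ▸ hw')⟩

/-- row LTB -/
theorem pf_LTB (hRVZ : T_RVZ) : T_LTB := by
  intro V G v n z a b b' hs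
  obtain ⟨_, hA, hB, _⟩ := hRVZ V G v n z hs
  constructor
  · constructor
    · rintro ⟨m, R, h1, h2, h3, h4⟩
      exact ⟨m, R, (ltb_og hRVZ hs).1 h1, hA ▸ h2, h3, h4⟩
    · rintro ⟨m, R, h1, h2, h3, h4⟩
      exact ⟨m, R, (ltb_og hRVZ hs).2 h1, hA ▸ h2, h3, h4⟩
  · constructor
    · rintro ⟨m, R, h1, h2, h3, h4⟩
      exact ⟨m, R, (ltb_og hRVZ hs).1 h1, hB ▸ h2, h3, h4⟩
    · rintro ⟨m, R, h1, h2, h3, h4⟩
      exact ⟨m, R, (ltb_og hRVZ hs).2 h1, hB ▸ h2, h3, h4⟩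

end Pool.Agent.H33.ER2
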