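import Pool.Agent.H66.ER2.Targets

/-!
# Rows OIP and MEET
-/

set_option autoImplicit false

open Pool.Agent.H48.ER Pool.Agent.H52.ER2 Pool.Agent.H66.ER2

namespace Pool.Agent.H33.ER2

theorem pf_MEET (hMNH : T_MNH) (hMNA : T_MNA) (hMNP : T_MNP) : T_MEET :=
  fun V G s t h hst hn => ⟨hMNH V G s t h.noh h.nop hst hn, hMNP V G s t h hst hn,
    hMNA V G s t h.nah hst hn⟩

theorem pf_OIP : T_OIP := by
  intro V G v n
  refine ⟨?_, ?_⟩
  · intro x y R h
    obtain ⟨g, g0, gn, gi, ga, hR⟩ := h.ip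
    refine ⟨g, ⟨⟨gi, ga⟩, h.two, ?_, ?_, ?_⟩, g0, gn, hR⟩
    · rw [g0]; exact h.left
    · rw [gn]; exact h.right
    · intro i hi hin
      have hmem : g i ∈ R := by
        rw [hR]
        exact ⟨i, hin.le, rfl⟩
      refine ⟨?_, ?_⟩
      · intro h1
        exact h.notMem (h1 ▸ hmem)
      · intro h1
        rcases h.int _ hmem h1 with h2 | h2
        · have h3 := gi i 0 hin.le (Nat.zero_le _) (by rw [g0, h2])
          omega
        · have h3 := gi i n hin.le le_rfl (by rw [gn, h2])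
          omega
  · intro z h
    have hcase : ∀ i, i ≤ n → i = 0 ∨ i = n ∨ (0 < i ∧ i < n) := by
      intro i hi
      omega
    refine ⟨⟨z, rfl, rfl, h.pf.inj, h.pf.adj, rfl⟩, h.two, ?_, h.left, h.right, ?_⟩
    · rintro ⟨i, hi, hiv⟩
      rcases hcase i hi with rfl | rfl | ⟨h1, h2⟩
      · exact G.loopless.irrefl v (by simpa [hiv] using h.left)
      · exact G.loopless.irrefl v (by simpa [hiv] using h.right)
      · exact (h.int i h1 h2).1 hiv
    · rintro w ⟨i, hi, rfl⟩ hw
      rcases hcase i hi with rfl | rfl | ⟨h1, h2⟩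
      · exact Or.inl rfl
      · exact Or.inr rfl
      · exact absurd hw (h.int i h1 h2).2

end Pool.Agent.H33.ER2
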