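import Pool.Agent.H56.ER2.Targets

/-!
# MP_816b90_co: row PAR (a parity lemma on two labels of an interval).
-/

set_option autoImplicit false
set_option linter.unusedVariables false

namespace Pool.Agent.H33.ER2

open Pool.Agent.H48.ER Pool.Agent.H52.ER2 Pool.Agent.H66.ER2 Pool.Agent.H56.ER2

open Classical in
/-- the number of pairs of consecutive elements of `S` below `i` -/
noncomputable def parE (S : ℕ → Prop) : ℕ → ℕ
  | 0 => 0
  | k + 1 => parE S k + if S k ∧ S (k + 1) then 1 else 0

theorem parE_succ_pos {S : ℕ → Prop} {k : ℕ} (h : S k ∧ S (k + 1)) :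
    parE S (k + 1) = parE S k + 1 := by
  rw [parE, if_pos h]

theorem parE_succ_neg {S : ℕ → Prop} {k : ℕ} (h : ¬ (S k ∧ S (k + 1))) :
    parE S (k + 1) = parE S k := by
  rw [parE, if_neg h]; rfl

theorem parE_const {S : ℕ → Prop} {i : ℕ} : ∀ d : ℕ,
    (∀ k, i ≤ k → k < i + d → ¬ (S k ∧ S (k + 1))) → parE S (i + d) = parE S i := by
  intro d
  induction d with
  | zero => intro _; rfl
  | succ d ih =>
    intro h
    have h1 := ih fun k hk hk' => h k hk (by omega)
    have h2 := parE_succ_neg (h (i + d) (by omega) (by omega))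
    rw [← h1, ← h2]
    rfl

theorem parE_gap {N : ℕ} {S : ℕ → Prop} (h0 : S 0)
    (hg : ∀ i j, i + 2 ≤ j → j ≤ N → S i → S j → (∀ k, i < k → k < j → ¬ S k) → Even (j - i)) :
    ∀ i, i ≤ N → S i → Even (parE S i + i) := by
  classical
  intro i
  induction i using Nat.strong_induction_on with
  | _ i ih =>
    intro hi hS
    rcases Nat.eq_zero_or_pos i with rfl | hpos
    · exact ⟨0, rfl⟩
    · -- the last element before i
      have hex : ∃ d, 1 ≤ d ∧ d ≤ i ∧ S (i - d) := ⟨i, hpos, le_rfl, by rwa [Nat.sub_self]⟩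
      obtain ⟨hd1, hd2, hd3⟩ := Nat.find_spec hex
      have hmin : ∀ d, d < Nat.find hex → ¬ (1 ≤ d ∧ d ≤ i ∧ S (i - d)) :=
        fun d hd => Nat.find_min hex hd
      set d := Nat.find hex with hdef
      have hbet : ∀ k, i - d < k → k < i → ¬ S k := by
        intro k hk hk' hSk
        refine hmin (i - k) (by omega) ⟨by omega, by omega, ?_⟩
        have : i - (i - k) = k := by omega
        rwa [this]
      have hI := ih (i - d) (by omega) (by omega) hd3
      by_cases h1 : d = 1
      · have hk : i - 1 + 1 = i := by omega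
        have h2 := parE_succ_pos (S := S) (k := i - 1)
          ⟨by rw [h1] at hd3; exact hd3, by rw [hk]; exact hS⟩
        rw [hk] at h2
        rw [h1] at hI
        rw [Nat.even_iff] at hI ⊢
        omega
      · have hev := hg (i - d) i (by omega) hi hd3 hS hbet
        have h2 := parE_const (S := S) (i := i - d) d (by
          rintro k hk hk' ⟨hk1, hk2⟩
          by_cases e : k = i - d
          · exact hbet (k + 1) (by omega) (by omega) hk2
          · exact hbet k (by omega) (by omega) hk1)
        have h3 : i - d + d = i := by omega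
        rw [h3] at h2
        rw [Nat.even_iff] at hI hev ⊢
        omega

/-- row PAR -/
theorem pf_PAR : T_PAR := by
  classical
  intro N A B hN hA0 hAN hB0 hBN hAB hA hB hmix
  have hS : ∀ i j, i + 2 ≤ j → j ≤ N → (A i ∨ B i) → (A j ∨ B j) →
      (∀ k, i < k → k < j → ¬ (A k ∨ B k)) → Even (j - i) := by
    intro i j hij hj hi hj' hbet
    have hbA : ∀ k, i < k → k < j → ¬ A k := fun k h1 h2 h => hbet k h1 h2 (Or.inl h)
    have hbB : ∀ k, i < k → k < j → ¬ B k := fun k h1 h2 h => hbet k h1 h2 (Or.inr h)
    have hcA : A i → A j → Even (j - i) := fun h1 h2 => hA i j hij hj h1 h2 hbA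
    have hcB : B i → B j → Even (j - i) := fun h1 h2 => hB i j hij hj h1 h2 hbB
    by_cases h0 : i = 0
    · rcases hj' with h | h
      · exact hcA (h0 ▸ hA0) h
      · exact hcB (h0 ▸ hB0) h
    by_cases h1 : j = N
    · rcases hi with h | h
      · exact hcA h (h1 ▸ hAN)
      · exact hcB h (h1 ▸ hBN)
    rcases hi with hi | hi <;> rcases hj' with hj' | hj'
    · exact hcA hi hj'
    · exact hmix i j (by omega) (by omega) (by omega) (fun k h2 h3 => ⟨hbA k h2 h3, hbB k h2 h3⟩)
        (Or.inl ⟨hi, hj'⟩)
    · exact hmix i j (by omega) (by omega) (by omega) (fun k h2 h3 => ⟨hbA k h2 h3, hbB k h2 h3⟩)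
        (Or.inr ⟨hi, hj'⟩)
    · exact hcB hi hj'
  have hsum : ∀ i, i ≤ N → parE (fun k => A k ∨ B k) i = parE A i + parE B i := by
    intro i
    induction i with
    | zero => intro _; rfl
    | succ k ih =>
      intro hk
      have ih := ih (by omega)
      by_cases h1 : A k ∧ A (k + 1)
      · by_cases h2 : B k ∧ B (k + 1)
        · exfalso
          have e1 : k = 0 := by
            by_contra h
            exact hAB k (by omega) (by omega) ⟨h1.1, h2.1⟩
          exact hAB (k + 1) (by omega) (by omega) ⟨h1.2, h2.2⟩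
        · rw [parE_succ_pos (S := fun k => A k ∨ B k) ⟨Or.inl h1.1, Or.inl h1.2⟩,
            parE_succ_pos h1, parE_succ_neg h2, ih]
          omega
      · by_cases h2 : B k ∧ B (k + 1)
        · rw [parE_succ_pos (S := fun k => A k ∨ B k) ⟨Or.inr h2.1, Or.inr h2.2⟩,
            parE_succ_neg h1, parE_succ_pos h2, ih]
          omega
        · have h3 : ¬ ((fun k => A k ∨ B k) k ∧ (fun k => A k ∨ B k) (k + 1)) := by
            have hm : ¬ ((A k ∧ B (k + 1)) ∨ (B k ∧ A (k + 1))) := by
              intro hm
              by_cases e0 : k = 0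
              · subst e0
                rcases hm with h | h
                · exact h2 ⟨hB0, h.2⟩
                · exact h1 ⟨hA0, h.2⟩
              by_cases e1 : k + 1 = N
              · rcases hm with h | h
                · exact h1 ⟨h.1, e1 ▸ hAN⟩
                · exact h2 ⟨h.1, e1 ▸ hBN⟩
              have := hmix k (k + 1) (by omega) (by omega) (by omega) (fun l h4 h5 => by omega) hm
              rw [Nat.even_iff] at this
              omega
            rintro ⟨h4 | h4, h5 | h5⟩
            · exact h1 ⟨h4, h5⟩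
            · exact hm (Or.inl ⟨h4, h5⟩)
            · exact hm (Or.inr ⟨h4, h5⟩)
            · exact h2 ⟨h4, h5⟩
          rw [parE_succ_neg h3, parE_succ_neg h1, parE_succ_neg h2, ih]
  have q1 := parE_gap hA0 hA N le_rfl hAN
  have q2 := parE_gap hB0 hB N le_rfl hBN
  have q3 := parE_gap (S := fun k => A k ∨ B k) (Or.inl hA0) hS N le_rfl (Or.inl hAN)
  rw [hsum N le_rfl] at q3
  rw [Nat.even_iff] at q1 q2 q3 ⊢
  omega

end Pool.Agent.H33.ER2
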