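import Pool.Agent.H66.ER2.Targets

/-!
# MP_816b90_co: row SPN (a vertex which closes a split prism sees the two other rungs).
-/

set_option autoImplicit false
set_option linter.unusedVariables false

namespace Pool.Agent.H33.ER2

open Pool.Agent.H48.ER Pool.Agent.H52.ER2 Pool.Agent.H66.ER2

theorem spn_rung {V : Type} {G : SimpleGraph V} {L R T R1 S1 : Set V} {a1 b1 a2 b2 v : V}
    (h1 : XE G L T a1 a2) (h2 : XE G R T b1 b2) (hv : ∀ w ∈ T, ¬ G.Adj v w) (hvL : v ∉ L)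
    (hvR : v ∉ R) (ha : a1 ∈ L) (hb : b1 ∈ R) (hd : Disjoint L R) (hR1 : R1 ⊆ L)
    (hS1 : S1 ⊆ R) : ∀ u ∈ insert v R1 ∪ S1, ∀ w ∈ T,
      G.Adj u w ↔ (u = a1 ∧ w = a2) ∨ (u = b1 ∧ w = b2) := by
  intro u hu w hw
  have hab : ∀ z, z ∈ L → z ∈ R → False := fun z h h' => Set.disjoint_left.1 hd h h'
  rcases hu with (rfl | hu) | hu
  · constructor
    · intro h; exact absurd h (hv w hw)
    · rintro (⟨rfl, _⟩ | ⟨rfl, _⟩)
      · exact absurd ha hvL
      · exact absurd hb hvR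
  · rw [h1 u (hR1 hu) w hw]
    constructor
    · intro h; exact Or.inl h
    · rintro (h | ⟨rfl, _⟩)
      · exact h
      · exact (hab _ (hR1 hu) hb).elim
  · rw [h2 u (hS1 hu) w hw]
    constructor
    · intro h; exact Or.inr h
    · rintro (⟨rfl, _⟩ | h)
      · exact (hab _ ha (hS1 hu)).elim
      · exact h

theorem spn_dis {V : Type} {L R T R1 S1 : Set V} {v : V}
    (h1 : Disjoint L T) (h2 : Disjoint R T) (hv : v ∉ T) (hR1 : R1 ⊆ L)
    (hS1 : S1 ⊆ R) : Disjoint (insert v R1 ∪ S1) T := by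
  rw [Set.disjoint_left]
  rintro u ((rfl | hu) | hu) hw
  · exact hv hw
  · exact Set.disjoint_left.1 h1 (hR1 hu) hw
  · exact Set.disjoint_left.1 h2 (hS1 hu) hw

/-- row SPN -/
theorem pf_SPN (hFST : T_FST) (hEVN : T_EVN) : T_SPN := by
  intro V G l r n m a1 x b1 y a2 b2 a3 b3 v L R P Q hNOH hNOP hs hv hvx hvy
  by_contra hno
  push Not at hno
  have hvL : v ∉ L := fun h => hv (Or.inl (Or.inl (Or.inl h)))
  have hvR : v ∉ R := fun h => hv (Or.inl (Or.inl (Or.inr h)))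
  have hvP : v ∉ P := fun h => hv (Or.inl (Or.inr h))
  have hvQ : v ∉ Q := fun h => hv (Or.inr h)
  obtain ⟨i, j, p, R1, R2, hR1, hR2, hpZ, _, hun, _, _, hfirst⟩ :=
    hFST V G l a1 x L {w | G.Adj v w} hs.ipL ⟨x, hs.ipL.right_mem, hvx⟩
  obtain ⟨i', j', q, S1, S2, hS1, hS2, hqZ, _, hun', _, _, hfirst'⟩ :=
    hFST V G r b1 y R {w | G.Adj v w} hs.ipR ⟨y, hs.ipR.right_mem, hvy⟩
  have sR1 : R1 ⊆ L := fun w hw => hun ▸ Or.inl hw
  have sS1 : S1 ⊆ R := fun w hw => hun' ▸ Or.inl hw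
  have hA : IP G (i + 1) a1 v (insert v R1) := by
    refine hR1.snoc (fun h => hvL (sR1 h)) ?_
    intro w hw
    constructor
    · intro h; exact hfirst w hw h
    · rintro rfl; exact hpZ
  have hdAS : Disjoint (insert v R1) S1 := by
    rw [Set.disjoint_left]
    rintro u (rfl | hu) hw
    · exact hvR (sS1 hw)
    · exact Set.disjoint_left.1 hs.dLR (sR1 hu) (sS1 hw)
  have hX : XE G (insert v R1) S1 v q := by
    rintro a (rfl | ha) b hb
    · constructor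
      · intro h; exact ⟨rfl, hfirst' b hb h⟩
      · rintro ⟨_, rfl⟩; exact hqZ
    · constructor
      · intro h; exact absurd h (hs.eLR a (sR1 ha) b (sS1 hb))
      · rintro ⟨rfl, _⟩; exact absurd (sR1 ha) hvL
  have hB := hA.append hS1.rev hdAS hX
  have hpr := mk3 hB hs.ipP hs.ipQ (by omega) hs.oP.pos hs.oQ.pos
    (spn_dis hs.dLP hs.dRP hvP sR1 sS1) (spn_dis hs.dLQ hs.dRQ hvQ sR1 sS1) hs.dPQ
    (spn_rung hs.eLP hs.eRP (fun w hw => hno w (Or.inl hw)) hvL hvR hs.ipL.left_mem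
      hs.ipR.left_mem hs.dLR sR1 sS1)
    (spn_rung hs.eLQ hs.eRQ (fun w hw => hno w (Or.inr hw)) hvL hvR hs.ipL.left_mem
      hs.ipR.left_mem hs.dLR sR1 sS1) hs.ePQ
  have hev := (hEVN V G _ _ _ _ hNOH hpr).2 hNOP 1
  exact (Nat.not_even_iff_odd.2 hs.oP) hev

end Pool.Agent.H33.ER2
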